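import Mathlib.Data.Nat.Notation
import Pool.Agent.Lib_helper77.CGT.Check

set_option autoImplicit false
set_option maxRecDepth 100000

namespace Pool.Agent.Lib_helper77.ZhuCert

open Pool.Agent.Lib_helper77.CGT

/-- data of the vertices -/
def vs : VL := (.cons 1 524286 246846 277440 0 (.cons 2 524285 264157 260128 4 (.cons 4 524283 264155 260128 8 (.cons 8 524279 264151 260128 16 (.cons 16 524271 264143 260128 0 (.cons 32 524255 243905 280350 0 (.cons 64 524223 425790 98433 128 (.cons 128 524159 425790 98369 0 (.cons 256 524031 523998 33 512 (.cons 512 523775 523742 33 0 (.cons 1024 523263 263135 260128 0 (.cons 2048 522239 422880 99359 4096 (.cons 4096 520191 420832 99359 8192 (.cons 8192 516095 416736 99359 0 (.cons 16384 507903 375745 132158 0 (.cons 32768 491519 213793 277726 65536 (.cons 65536 458751 181025 277726 0 (.cons 131072 393215 375777 17438 0 (.cons 262144 262143 163806 98337 0 VL.nil)))))))))))))))))))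

end Pool.Agent.Lib_helper77.ZhuCert
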