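import Mathlib.Data.Nat.Notation
import Pool.Agent.Lib_helper77.ZhuCert.VS
import Pool.Agent.Lib_helper77.ZhuCert.TA10
import Pool.Agent.Lib_helper77.ZhuCert.TA12

set_option autoImplicit false
set_option maxRecDepth 100000

namespace Pool.Agent.Lib_helper77.ZhuCert

open Pool.Agent.Lib_helper77.CGT

theorem CA10_1 : Tr.chk (chkPA 4 vs A12) A10_1 = true := by decide +kernel

end Pool.Agent.Lib_helper77.ZhuCert
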