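import Mathlib.Data.Nat.Notation
import Pool.Agent.Lib_helper77.CGT.Check

set_option autoImplicit false
set_option maxRecDepth 100000

namespace Pool.Agent.Lib_helper77.ZhuCert

open Pool.Agent.Lib_helper77.CGT

/-- positions -/
def A2_0 : Tr := (.node 61599275203860822563917635830598435397369854 (.node 33462006864691027445271860664806618629013502 (.node 353213138400882896099421630456891376664558 (.node 10208512464714937095367255840748162513918 (.leaf 10208512464714937095367255840748162513918 32) (.leaf 353213138400882896099421630456891376664558 32)) (.node 33451117838036076918992601212115352887476222 (.leaf 33451117838036076918992601212115352887476222 12884967424) (.leaf 33462006864691027445271860664806618629013502 12884967424))) (.node 55740293415408400954913302008680434207293438 (.node 39395850777676771673222445550245573294424062 (.leaf 39395850777676771673222445550245573294424062 8589934624) (.leaf 55740293415408400954913302008680434207293438 8590000128)) (.node 61337938368046603231935261954043670992191486 (.leaf 61337938368046603231935261954043670992191486 12884934656) (.leaf 61599275203860822563917635830598435397369854 12884934656)))) (.node 83648892022086558290174585156176519679704062 (.node 78422154875102826871825116253395394788573182 (.node 78052608236392862115798929364905236468596702 (.leaf 78052608236392862115798929364905236468596702 12884967424) (.leaf 78422154875102826871825116253395394788573182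 12884967424)) (.node 82996230441039194705037337839721131463409630 (.leaf 82996230441039194705037337839721131463409630 8590000128) (.leaf 83648892022086558290174585156176519679704062 12884967424))) (.node 83997341177983203495144885275679051796176894 (.node 83991896648022726249178639530792662893854702 (.leaf 83991896648022726249178639530792662893854702 12884967424) (.leaf 83997341177983203495144885275679051796176894 12885032960)) (.node 83997341178700535278697789132496027163033470 (.leaf 83997341178700535278697789132496027163033470 12884967424) (.leaf 83997341186461092253287925978732890451082750 12884967424)))))

/-- all positions of the layer -/
def A2 : Tr := A2_0

end Pool.Agent.Lib_helper77.ZhuCert
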