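import Mathlib.Data.Nat.Notation
import Pool.Agent.Lib_helper77.ZhuCert.VS
import Pool.Agent.Lib_helper77.ZhuCert.TA6
import Pool.Agent.Lib_helper77.ZhuCert.TA8

set_option autoImplicit false
set_option maxRecDepth 100000

namespace Pool.Agent.Lib_helper77.ZhuCert

open Pool.Agent.Lib_helper77.CGT

theorem CA6_1 : Tr.chk (chkPA 4 vs A8) A6_1 = true := by decide +kernel

end Pool.Agent.Lib_helper77.ZhuCert
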