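import Mathlib.Data.Nat.Notation
import Pool.Agent.Lib_helper77.CGT.Check

set_option autoImplicit false
set_option maxRecDepth 100000

namespace Pool.Agent.Lib_helper77.ZhuCert

open Pool.Agent.Lib_helper77.CGT

/-- positions -/
def B11_0 : Tr := (.node 82930896227825224656169340157509197797767424 (.node 261336857856127970842835062737427639810816 (.node 65334214464031994269089705817215766608064 (.leaf 65334214464031994269089705817215766608064 131072) (.node 152446500416074650519365275181845238102464 (.leaf 152446500416074650519365275181845238102464 256) (.leaf 261336857856127970842835062737427639810816 131072))) (.node 38329405830804543192314651686028307601931008 (.node 261336857861198573230761471956146387532608 (.leaf 261336857861198573230761471956146387532608 8589934656) (.leaf 38329405830804543192314651686028307601931008 4295229440)) (.node 38394740045207727955680778027612395180243136 (.leaf 38394740045207727955680778027612395180243136 4295229440) (.leaf 82930896227825224656169340157509197797767424 256)))) (.node 2923086205558033641508072551464108803927761729538 (.node 2923003340676585034439697186477549183628302465218 (.node 82952674299287882308223802687097906844383296 (.leaf 82952674299287882308223802687097906844383296 4294967360) (.leaf 2923003340676585034439697186477549183628302465218 8589934594)) (.node 2923003536679228426535673746055806658529774910210 (.leaf 2923003536679228426535673746055806658529774910210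 8589934594) (.leaf 2923086205558033641508072551464108803927761729538 4294967298))) (.node 8769009826027111716293713232098293961495580620870 (.node 8769009826027111711223110830004785297466432141318 (.leaf 8769009826027111711223110830004785297466432141318 131072) (.leaf 8769009826027111716293713232098293961495580620870 8589934656)) (.node 8769009913139397663265767080280354662095903635718 (.leaf 8769009913139397663265767080280354662095903635718 256) (.leaf 8769048153391248253393441461023539912497493817350 4295229440)))))

/-- all positions of the layer -/
def B11 : Tr := B11_0

end Pool.Agent.Lib_helper77.ZhuCert
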