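import Mathlib.Data.Nat.Notation
import Pool.Agent.Lib_helper77.CGT.Check

set_option autoImplicit false
set_option maxRecDepth 100000

namespace Pool.Agent.Lib_helper77.ZhuCert

open Pool.Agent.Lib_helper77.CGT

/-- positions -/
def B13_0 : Tr := (.node 5070604479934762173408112392256 (.node 2077841253509378963912704 (.leaf 2077841253509378963912704 131072) (.leaf 5070604479934762173408112392256 8589934656)) (.node 87112285952042658328116822874008435407104 (.leaf 87112285952042658328116822874008435407104 256) (.node 38329405830743695963489529575304558377547776 (.leaf 38329405830743695963489529575304558377547776 4295229440) (.leaf 2923003275342370570407704995229096875791499769858 8589934594))))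

/-- all positions of the layer -/
def B13 : Tr := B13_0

end Pool.Agent.Lib_helper77.ZhuCert
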