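import Mathlib.Data.Nat.Notation
import Pool.Agent.Lib_helper77.CGT.Check

set_option autoImplicit false
set_option maxRecDepth 100000

namespace Pool.Agent.Lib_helper77.ZhuCert

open Pool.Agent.Lib_helper77.CGT

/-- positions -/
def B1_0 : Tr := (.leaf 360765833346989342811956145893667379867209813763555326 17179870208)

/-- all positions of the layer -/
def B1 : Tr := B1_0

end Pool.Agent.Lib_helper77.ZhuCert
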