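import Mathlib.Data.Nat.Notation
import Pool.Agent.Lib_helper77.CGT.Check

set_option autoImplicit false
set_option maxRecDepth 100000

namespace Pool.Agent.Lib_helper77.ZhuCert

open Pool.Agent.Lib_helper77.CGT

/-- positions -/
def B3_0 : Tr := (.node 43845132116157550485237019542828004631977388407774 (.node 20461200974020044224037973605880442829222967770094 (.node 20461112457048501814157349805170560818221658143726 (.leaf 20461112457048501814157349805170560818221658143726 8) (.leaf 20461200974020044224037973605880442829222967770094 8)) (.node 43845104511771360358214848692986061459164166880254 (.leaf 43845104511771360358214848692986061459164166880254 16) (.node 43845110719202313306864878423125995509281322367998 (.leaf 43845110719202313306864878423125995509281322367998 16) (.leaf 43845132116157550485237019542828004631977388407774 16)))) (.node 43845176989873830701175655098504093634403559144446 (.node 43845176978984804046225128819244640943137817607166 (.leaf 43845176978984804046225128819244640943137817607166 16) (.leaf 43845176989873830701175655098504093634403559144446 16)) (.node 43845190927839589518371730577865729839505401699326 (.leaf 43845190927839589518371730577865729839505401699326 16) (.node 43845193660306996532403494852545990115970995714942 (.leaf 43845193660306996532403494852545990115970995714942 16) (.leaf 43845226991645401141744253604454481910656232061438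 16)))))

/-- all positions of the layer -/
def B3 : Tr := B3_0

end Pool.Agent.Lib_helper77.ZhuCert
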