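import Mathlib.Data.Nat.Notation
import Pool.Agent.Lib_helper77.CGT.Check

set_option autoImplicit false
set_option maxRecDepth 100000

namespace Pool.Agent.Lib_helper77.ZhuCert

open Pool.Agent.Lib_helper77.CGT

/-- positions -/
def B7_0 : Tr := (.node 2923092739660043318215681598820074471873151761186 (.node 2923003536679228431606278883026699399004307061602 (.node 89355427315307754658362647916541293315488224 (.node 326671072320159965754756905062343509277664 (.leaf 326671072320159965754756905062343509277664 512) (.leaf 89355427315307754658362647916541293315488224 256)) (.node 89464317672752878581083488846281333755345760 (.leaf 89464317672752878581083488846281333755345760 512) (.node 2923003427788870986482356162185769658963867204066 (.leaf 2923003427788870986482356162185769658963867204066 2) (.leaf 2923003536679228431606278883026699399004307061602 2)))) (.node 2923086270892248166387293567834671835513788808130 (.node 2923064873937016177776710990839356701987951795170 (.leaf 2923064873937016177776710990839356701987951795170 512) (.leaf 2923086270892248166387293567834671835513788808130 4294967298)) (.node 2923092543657399926119705025074717548362743675106 (.leaf 2923092543657399926119705025074717548362743675106 2) (.node 2923092565435471419200971490917710877954113272162 (.leaf 2923092565435471419200971490917710877954113272162 2) (.leaf 2923092739660043318215681598820074471873151761186 2))))) (.node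 8769071249036055946823050461839460286382555453926 (.node 8769010152698184031383072542415979632786306948070 (.node 8769010152698184031383071786247046833351910734790 (.leaf 8769010152698184031383071786247046833351910734790 131072) (.leaf 8769010152698184031383072542415979632786306948070 512)) (.node 8769048218725462778272662477394102944083520895942 (.leaf 8769048218725462778272662477394102944083520895942 4295229440) (.node 8769060272888028585596792203976196783099942951910 (.leaf 8769060272888028585596792203976196783099942951910 512) (.leaf 8769071249036055946823050461839460286382555453926 12884902144)))) (.node 8769071423260627840767158167648314653047614004070 (.node 8769071423260627835696555766735397047335679089510 (.leaf 8769071423260627835696555766735397047335679089510 512) (.leaf 8769071423260627840767158167648314653047614004070 512)) (.node 8769071423260627850908362971835333089688509926374 (.leaf 8769071423260627850908362971835333089688509926374 512) (.node 8769092776659716858427015020418762429595185036102 (.leaf 8769092776659716858427015020418762429595185036102 4294967360) (.leaf 8769092820215859798954126332082574424973716732358 256))))))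

/-- all positions of the layer -/
def B7 : Tr := B7_0

end Pool.Agent.Lib_helper77.ZhuCert
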