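import Mathlib.Data.Nat.Notation
import Pool.Agent.Lib_helper77.CGT.Check

set_option autoImplicit false
set_option maxRecDepth 100000

namespace Pool.Agent.Lib_helper77.ZhuCert

open Pool.Agent.Lib_helper77.CGT

/-- positions -/
def B9_0 : Tr := (.node 2923086270892248105540064742712561111764564424898 (.node 82952674299348729537048924797821656068766528 (.node 326671072320159963034083515045264442506176 (.leaf 326671072320159963034083515045264442506176 131072) (.node 38394740045268575184505900138336144404626368 (.leaf 38394740045268575184505900138336144404626368 4295229440) (.leaf 82952674299348729537048924797821656068766528 4294967360))) (.node 2923003602013442890567665937304258966366577605570 (.node 82996230442289256648360588609817034600462784 (.leaf 82996230442289256648360588609817034600462784 256) (.leaf 2923003602013442890567665937304258966366577605570 8589934594)) (.node 2923086205558033702355301376586219527676986112770 (.leaf 2923086205558033702355301376586219527676986112770 4294967298) (.leaf 2923086270892248105540064742712561111764564424898 4294967298)))) (.node 8769010087363969572421681982925003744233855761222 (.node 8769009978473612127297759271528806969932706331078 (.node 8769009891361326175255103021253237605303234836678 (.leaf 8769009891361326175255103021253237605303234836678 131072) (.leaf 8769009978473612127297759271528806969932706331078 256)) (.node 8769010087363969567351079594998594525515108039430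 (.leaf 8769010087363969567351079594998594525515108039430 131072) (.leaf 8769010087363969572421681982925003744233855761222 8589934656))) (.node 8769048218725462717425433652271992220334296512710 (.node 8769048153391248314240670286145650636246718200582 (.leaf 8769048153391248314240670286145650636246718200582 4295229440) (.leaf 8769048218725462717425433652271992220334296512710 4295229440)) (.node 8769092754881645334922134140834122117136914036998 (.leaf 8769092754881645334922134140834122117136914036998 256) (.leaf 8769092776659716797579786195296651705845960652870 4294967360)))))

/-- all positions of the layer -/
def B9 : Tr := B9_0

end Pool.Agent.Lib_helper77.ZhuCert
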