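import Mathlib
import Pool.Agent.Lib_helper77.CGT.Root
import Pool.Agent.Lib_helper74.CG.Final
import Pool.Agent.Lib_helper77.ZhuCert.VS
import Pool.Agent.Lib_helper77.ZhuCert.KA16_0
import Pool.Agent.Lib_helper77.ZhuCert.KA14_0
import Pool.Agent.Lib_helper77.ZhuCert.KA14_1
import Pool.Agent.Lib_helper77.ZhuCert.KA14_2
import Pool.Agent.Lib_helper77.ZhuCert.KA14_3
import Pool.Agent.Lib_helper77.ZhuCert.KA14_4
import Pool.Agent.Lib_helper77.ZhuCert.KA14_5
import Pool.Agent.Lib_helper77.ZhuCert.KA14_6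
import Pool.Agent.Lib_helper77.ZhuCert.KA14_7
import Pool.Agent.Lib_helper77.ZhuCert.KA12_0
import Pool.Agent.Lib_helper77.ZhuCert.KA12_1
import Pool.Agent.Lib_helper77.ZhuCert.KA12_2
import Pool.Agent.Lib_helper77.ZhuCert.KA12_3
import Pool.Agent.Lib_helper77.ZhuCert.KA12_4
import Pool.Agent.Lib_helper77.ZhuCert.KA12_5
import Pool.Agent.Lib_helper77.ZhuCert.KA12_6
import Pool.Agent.Lib_helper77.ZhuCert.KA12_7
import Pool.Agent.Lib_helper77.ZhuCert.KA12_8
import Pool.Agent.Lib_helper77.ZhuCert.KA12_9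
import Pool.Agent.Lib_helper77.ZhuCert.KA12_10
import Pool.Agent.Lib_helper77.ZhuCert.KA12_11
import Pool.Agent.Lib_helper77.ZhuCert.KA12_12
import Pool.Agent.Lib_helper77.ZhuCert.KA12_13
import Pool.Agent.Lib_helper77.ZhuCert.KA12_14
import Pool.Agent.Lib_helper77.ZhuCert.KA12_15
import Pool.Agent.Lib_helper77.ZhuCert.KA12_16
import Pool.Agent.Lib_helper77.ZhuCert.KA12_17
import Pool.Agent.Lib_helper77.ZhuCert.KA12_18
import Pool.Agent.Lib_helper77.ZhuCert.KA12_19
import Pool.Agent.Lib_helper77.ZhuCert.KA10_0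
import Pool.Agent.Lib_helper77.ZhuCert.KA10_1
import Pool.Agent.Lib_helper77.ZhuCert.KA10_2
import Pool.Agent.Lib_helper77.ZhuCert.KA10_3
import Pool.Agent.Lib_helper77.ZhuCert.KA10_4
import Pool.Agent.Lib_helper77.ZhuCert.KA10_5
import Pool.Agent.Lib_helper77.ZhuCert.KA10_6
import Pool.Agent.Lib_helper77.ZhuCert.KA10_7
import Pool.Agent.Lib_helper77.ZhuCert.KA10_8
import Pool.Agent.Lib_helper77.ZhuCert.KA10_9
import Pool.Agent.Lib_helper77.ZhuCert.KA10_10
import Pool.Agent.Lib_helper77.ZhuCert.KA10_11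
import Pool.Agent.Lib_helper77.ZhuCert.KA10_12
import Pool.Agent.Lib_helper77.ZhuCert.KA10_13
import Pool.Agent.Lib_helper77.ZhuCert.KA10_14
import Pool.Agent.Lib_helper77.ZhuCert.KA10_15
import Pool.Agent.Lib_helper77.ZhuCert.KA10_16
import Pool.Agent.Lib_helper77.ZhuCert.KA10_17
import Pool.Agent.Lib_helper77.ZhuCert.KA10_18
import Pool.Agent.Lib_helper77.ZhuCert.KA10_19
import Pool.Agent.Lib_helper77.ZhuCert.KA8_0
import Pool.Agent.Lib_helper77.ZhuCert.KA8_1
import Pool.Agent.Lib_helper77.ZhuCert.KA8_2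
import Pool.Agent.Lib_helper77.ZhuCert.KA8_3
import Pool.Agent.Lib_helper77.ZhuCert.KA8_4
import Pool.Agent.Lib_helper77.ZhuCert.KA8_5
import Pool.Agent.Lib_helper77.ZhuCert.KA8_6
import Pool.Agent.Lib_helper77.ZhuCert.KA8_7
import Pool.Agent.Lib_helper77.ZhuCert.KA8_8
import Pool.Agent.Lib_helper77.ZhuCert.KA8_9
import Pool.Agent.Lib_helper77.ZhuCert.KA8_10
import Pool.Agent.Lib_helper77.ZhuCert.KA6_0
import Pool.Agent.Lib_helper77.ZhuCert.KA6_1
import Pool.Agent.Lib_helper77.ZhuCert.KA6_2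
import Pool.Agent.Lib_helper77.ZhuCert.KA4_0
import Pool.Agent.Lib_helper77.ZhuCert.KA2_0
import Pool.Agent.Lib_helper77.ZhuCert.KB13_0
import Pool.Agent.Lib_helper77.ZhuCert.KB11_0
import Pool.Agent.Lib_helper77.ZhuCert.KB9_0
import Pool.Agent.Lib_helper77.ZhuCert.KB7_0
import Pool.Agent.Lib_helper77.ZhuCert.KB5_0
import Pool.Agent.Lib_helper77.ZhuCert.KB3_0
import Pool.Agent.Lib_helper77.ZhuCert.KB1_0

set_option autoImplicit false
set_option maxRecDepth 100000

namespace Pool.Agent.Lib_helper77.ZhuCert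

open Pool.Agent.Lib_helper77.CGT

/-- adjacency masks -/
def adj : List ℕ := [277440, 260128, 260128, 260128, 260128, 280350, 98433, 98369, 33, 33, 260128, 99359, 99359, 99359, 132158, 277726, 277726, 17438, 98337]

/-- the graph -/
def G : SimpleGraph (Fin 19) :=
  Pool.Agent.Lib_helper74.CG.grM 19 adj (by decide +kernel) (by decide +kernel)

instance : DecidableRel G.Adj :=
  inferInstanceAs (DecidableRel (Pool.Agent.Lib_helper74.CG.grM 19 adj _ _).Adj)

theorem vs_ok : VLok G vs := by decide +kernel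

theorem LA16 : GoodA G 4 16 A16 :=
  (layerA (by norm_num) vs_ok (by decide) GoodA.nil CA16_0)

theorem LA14 : GoodA G 4 14 A14 :=
  (GoodA.node (GoodA.node (GoodA.node (layerA (by norm_num) vs_ok (by decide) LA16 CA14_0) (layerA (by norm_num) vs_ok (by decide) LA16 CA14_1)) (GoodA.node (layerA (by norm_num) vs_ok (by decide) LA16 CA14_2) (layerA (by norm_num) vs_ok (by decide) LA16 CA14_3))) (GoodA.node (GoodA.node (layerA (by norm_num) vs_ok (by decide) LA16 CA14_4) (layerA (by norm_num) vs_ok (by decide) LA16 CA14_5)) (GoodA.node (layerA (by norm_num) vs_ok (by decide) LA16 CA14_6) (layerA (by norm_num) vs_ok (by decide) LA16 CA14_7))))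

theorem LA12 : GoodA G 4 12 A12 :=
  (GoodA.node (GoodA.node (GoodA.node (GoodA.node (layerA (by norm_num) vs_ok (by decide) LA14 CA12_0) (layerA (by norm_num) vs_ok (by decide) LA14 CA12_1)) (GoodA.node (layerA (by norm_num) vs_ok (by decide) LA14 CA12_2) (GoodA.node (layerA (by norm_num) vs_ok (by decide) LA14 CA12_3) (layerA (by norm_num) vs_ok (by decide) LA14 CA12_4)))) (GoodA.node (GoodA.node (layerA (by norm_num) vs_ok (by decide) LA14 CA12_5) (layerA (by norm_num) vs_ok (by decide) LA14 CA12_6)) (GoodA.node (layerA (by norm_num) vs_ok (by decide) LA14 CA12_7) (GoodA.node (layerA (by norm_num) vs_ok (by decide) LA14 CA12_8) (layerA (by norm_num) vs_ok (by decide) LA14 CA12_9))))) (GoodA.node (GoodA.node (GoodA.node (layerA (by norm_num) vs_ok (by decide) LA14 CA12_10) (layerA (by norm_num) vs_ok (by decide) LA14 CA12_11)) (GoodA.node (layerA (by norm_num) vs_ok (by decide) LA14 CA12_12) (GoodA.node (layerA (by norm_num) vs_ok (by decide) LA14 CA12_13) (layerA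 (by norm_num) vs_ok (by decide) LA14 CA12_14)))) (GoodA.node (GoodA.node (layerA (by norm_num) vs_ok (by decide) LA14 CA12_15) (layerA (by norm_num) vs_ok (by decide) LA14 CA12_16)) (GoodA.node (layerA (by norm_num) vs_ok (by decide) LA14 CA12_17) (GoodA.node (layerA (by norm_num) vs_ok (by decide) LA14 CA12_18) (layerA (by norm_num) vs_ok (by decide) LA14 CA12_19))))))

theorem LA10 : GoodA G 4 10 A10 :=
  (GoodA.node (GoodA.node (GoodA.node (GoodA.node (layerA (by norm_num) vs_ok (by decide) LA12 CA10_0) (layerA (by norm_num) vs_ok (by decide) LA12 CA10_1)) (GoodA.node (layerA (by norm_num) vs_ok (by decide) LA12 CA10_2) (GoodA.node (layerA (by norm_num) vs_ok (by decide) LA12 CA10_3) (layerA (by norm_num) vs_ok (by decide) LA12 CA10_4)))) (GoodA.node (GoodA.node (layerA (by norm_num) vs_ok (by decide) LA12 CA10_5) (layerA (by norm_num) vs_ok (by decide) LA12 CA10_6)) (GoodA.node (layerA (by norm_num) vs_ok (by decide) LA12 CA10_7) (GoodA.node (layerA (by norm_num)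 vs_ok (by decide) LA12 CA10_8) (layerA (by norm_num) vs_ok (by decide) LA12 CA10_9))))) (GoodA.node (GoodA.node (GoodA.node (layerA (by norm_num) vs_ok (by decide) LA12 CA10_10) (layerA (by norm_num) vs_ok (by decide) LA12 CA10_11)) (GoodA.node (layerA (by norm_num) vs_ok (by decide) LA12 CA10_12) (GoodA.node (layerA (by norm_num) vs_ok (by decide) LA12 CA10_13) (layerA (by norm_num) vs_ok (by decide) LA12 CA10_14)))) (GoodA.node (GoodA.node (layerA (by norm_num) vs_ok (by decide) LA12 CA10_15) (layerA (by norm_num) vs_ok (by decide) LA12 CA10_16)) (GoodA.node (layerA (by norm_num) vs_ok (by decide) LA12 CA10_17) (GoodA.node (layerA (by norm_num) vs_ok (by decide) LA12 CA10_18) (layerA (by norm_num) vs_ok (by decide) LA12 CA10_19))))))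

theorem LA8 : GoodA G 4 8 A8 :=
  (GoodA.node (GoodA.node (GoodA.node (layerA (by norm_num) vs_ok (by decide) LA10 CA8_0) (layerA (by norm_num) vs_ok (by decide) LA10 CA8_1)) (GoodA.node (layerA (by norm_num) vs_ok (by decide) LA10 CA8_2) (GoodA.node (layerA (by norm_num) vs_ok (by decide) LA10 CA8_3) (layerA (by norm_num) vs_ok (by decide) LA10 CA8_4)))) (GoodA.node (GoodA.node (layerA (by norm_num) vs_ok (by decide) LA10 CA8_5) (GoodA.node (layerA (by norm_num) vs_ok (by decide) LA10 CA8_6) (layerA (by norm_num) vs_ok (by decide) LA10 CA8_7))) (GoodA.node (layerA (by norm_num) vs_ok (by decide) LA10 CA8_8) (GoodA.node (layerA (by norm_num) vs_ok (by decide) LA10 CA8_9) (layerA (by norm_num) vs_ok (by decide) LA10 CA8_10)))))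

theorem LA6 : GoodA G 4 6 A6 :=
  (GoodA.node (layerA (by norm_num) vs_ok (by decide) LA8 CA6_0) (GoodA.node (layerA (by norm_num) vs_ok (by decide) LA8 CA6_1) (layerA (by norm_num) vs_ok (by decide) LA8 CA6_2)))

theorem LA4 : GoodA G 4 4 A4 :=
  (layerA (by norm_num) vs_ok (by decide) LA6 CA4_0)

theorem LA2 : GoodA G 4 2 A2 :=
  (layerA (by norm_num) vs_ok (by decide) LA4 CA2_0)

theorem LB13 : GoodB G 5 13 B13 :=
  (layerB (by norm_num) vs_ok (by decide) GoodB.nil CB13_0)

theorem LB11 : GoodB G 5 11 B11 :=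
  (layerB (by norm_num) vs_ok (by decide) LB13 CB11_0)

theorem LB9 : GoodB G 5 9 B9 :=
  (layerB (by norm_num) vs_ok (by decide) LB11 CB9_0)

theorem LB7 : GoodB G 5 7 B7 :=
  (layerB (by norm_num) vs_ok (by decide) LB9 CB7_0)

theorem LB5 : GoodB G 5 5 B5 :=
  (layerB (by norm_num) vs_ok (by decide) LB7 CB5_0)

theorem LB3 : GoodB G 5 3 B3 :=
  (layerB (by norm_num) vs_ok (by decide) LB5 CB3_0)

theorem LB1 : GoodB G 5 1 B1 :=
  (layerB (by norm_num) vs_ok (by decide) LB3 CB1_0)

/-- Alice wins with 4 colours (vertex 0 has colour 0, Bob to move) -/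
theorem hA : Pool.Agent.Lib_helper74.CG.AWin G 4 (fun v => if v = (0 : Fin 19) then some 0 else none) :=
  rootA (m := 3) (e := (1, 524286, 246846, 277440, 0)) vs_ok (by decide +kernel) LA2 (by decide +kernel)

/-- Bob wins with 5 colours (vertex 0 has colour 0, Bob to move) -/
theorem hB : ¬ Pool.Agent.Lib_helper74.CG.AWin G 5 (fun v => if v = (0 : Fin 19) then some 0 else none) :=
  rootB (m := 4) (e := (1, 524286, 246846, 277440, 0)) (by decide +kernel) LB1 (by decide +kernel)

end Pool.Agent.Lib_helper77.ZhuCert
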